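import Mathlib
import Pool.Agent.Lib.CookLevin.Defs
import Pool.Agent.Lib.MP_612bca_lc.Defs
import Pool.Agent.Lib.MP_612bca_lc.Main

/-!
Geometric thickness of simple graphs (with the number of layers as part of the input) is hard for
the existential theory of the reals.
-/

namespace Pool.Agent.Results.MP_612bca_lc.ThicknessExistsRHard

open Pool.Agent.Lib.MP_612bca_lc

/-- Deciding, for a simple graph `G` and a number `k`, whether `G` has geometric thickness at most
`k` is `∃ℝ`-hard: every problem which reduces in polynomial time to the existential theory of the
reals reduces in polynomial time to it. -/
theorem result : ExistsRHard GT := hard_GT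

end Pool.Agent.Results.MP_612bca_lc.ThicknessExistsRHard
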